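import Mathlib

/-!
# Entropy for the uniform law on a finite type

`co f` is the sum over `w` of the logarithm of the size of the fibre of `f` through `w`; the entropy of `f` is
`log |Ω| - co f / |Ω|`. `Det g f` says that `f` is a function of `g`.
-/

namespace Pool.Agent.Helper87.EN

open Finset

/-- `g` determines `f`. -/
def Det {Ω α β : Type*} (g : Ω → α) (f : Ω → β) : Prop := ∀ v w, g v = g w → f v = f w

section basic

variable {Ω : Type*} [Fintype Ω] {α β γ : Type*}

open Classical in
/-- Number of points of the fibre of `f` through `w`. -/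
noncomputable def fib (f : Ω → α) (w : Ω) : ℕ := (univ.filter fun v => f v = f w).card

/-- Sum of the logarithms of the sizes of the fibres. -/
noncomputable def co (f : Ω → α) : ℝ := ∑ w, Real.log (fib f w)

/-- Entropy (natural logarithm) of `f` for the uniform law. -/
noncomputable def H (f : Ω → α) : ℝ := Real.log (Fintype.card Ω) - co f / Fintype.card Ω

/-- Conditional entropy of `f` given `g`. -/
noncomputable def Hc (f : Ω → α) (g : Ω → β) : ℝ := H (fun w => (f w, g w)) - H g

theorem Hc_eq (f : Ω → α) (g : Ω → β) :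
    Hc f g = (co g - co fun w => (f w, g w)) / Fintype.card Ω := by
  unfold Hc H
  ring

theorem fib_pos (f : Ω → α) (w : Ω) : 0 < fib f w := by
  classical
  exact card_pos.mpr ⟨w, by simp⟩

theorem fib_le_of_det {g : Ω → β} {f : Ω → α} (h : Det g f) (w : Ω) : fib g w ≤ fib f w := by
  classical
  refine card_le_card fun v hv => ?_
  simp only [mem_filter, mem_univ, true_and] at hv ⊢
  exact h v w hv

theorem co_mono {g : Ω → β} {f : Ω → α} (h : Det g f) : co g ≤ co f := by
  refine sum_le_sum fun w _ => Real.log_le_log ?_ ?_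
  · exact_mod_cast fib_pos g w
  · exact_mod_cast fib_le_of_det h w

theorem co_congr {g : Ω → β} {f : Ω → α} (h : Det g f) (h' : Det f g) : co g = co f :=
  le_antisymm (co_mono h) (co_mono h')

theorem co_nonneg (f : Ω → α) : 0 ≤ co f :=
  sum_nonneg fun w _ => Real.log_nonneg (by exact_mod_cast fib_pos f w)

theorem co_of_injective {f : Ω → α} (h : Function.Injective f) : co f = 0 := by
  classical
  refine sum_eq_zero fun w _ => ?_
  have : fib f w = 1 := by
    unfold fib
    rw [card_eq_one]
    refine ⟨w, ?_⟩
    ext v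
    simp only [mem_filter, mem_univ, true_and, mem_singleton]
    exact ⟨fun h1 => h h1, fun h1 => by rw [h1]⟩
  rw [this]
  simp

theorem H_mono {g : Ω → β} {f : Ω → α} (h : Det g f) : H f ≤ H g := by
  unfold H
  have := co_mono h
  have h2 : co g / Fintype.card Ω ≤ co f / Fintype.card Ω :=
    div_le_div_of_nonneg_right this (Nat.cast_nonneg _)
  linarith

theorem Hc_nonneg (f : Ω → α) (g : Ω → β) : 0 ≤ Hc f g := by
  unfold Hc
  have : H g ≤ H fun w => (f w, g w) := H_mono fun v w h => (Prod.ext_iff.mp h).2
  linarith

open Classical in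
/-- A sum over one fibre of the inverse of its size is at most one. -/
theorem sum_fib_le (f : Ω → α) (a : α) : ∑ w ∈ univ.filter (fun w => f w = a), (1 : ℝ) / fib f w ≤ 1 := by
  have h1 : ∀ w ∈ univ.filter (fun w => f w = a), (1 : ℝ) / fib f w =
      1 / ((univ.filter (fun w => f w = a)).card : ℝ) := by
    intro w hw
    simp only [mem_filter, mem_univ, true_and] at hw
    unfold fib
    rw [hw]
  rw [sum_congr rfl h1, sum_const, nsmul_eq_mul]
  rcases Nat.eq_zero_or_pos (univ.filter (fun w => f w = a)).card with h | h
  · rw [h]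
    simp
  · rw [mul_one_div_cancel]
    exact_mod_cast h.ne'

/-- Submodularity. -/
theorem co_submod (f : Ω → α) (g : Ω → β) (h : Ω → γ) :
    co (fun w => (f w, g w)) + co (fun w => (g w, h w)) ≤ co (fun w => (f w, g w, h w)) + co g := by
  classical
  set A : Ω → ℝ := fun w => fib (fun w => (f w, g w)) w with hA
  set B : Ω → ℝ := fun w => fib (fun w => (g w, h w)) w with hB
  set C : Ω → ℝ := fun w => fib (fun w => (f w, g w, h w)) w with hC
  set D : Ω → ℝ := fun w => fib g w with hD
  have pA : ∀ w, 0 < A w := fun w => Nat.cast_pos.mpr (fib_pos (fun w => (f w, g w)) w)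
  have pB : ∀ w, 0 < B w := fun w => Nat.cast_pos.mpr (fib_pos (fun w => (g w, h w)) w)
  have pC : ∀ w, 0 < C w := fun w => Nat.cast_pos.mpr (fib_pos (fun w => (f w, g w, h w)) w)
  have pD : ∀ w, 0 < D w := fun w => Nat.cast_pos.mpr (fib_pos g w)
  have key : ∑ w, A w * B w * (1 / C w * (1 / D w)) ≤ Fintype.card Ω := by
    have e1 : ∀ w, A w * B w * (1 / C w * (1 / D w)) =
        ∑ u, ∑ v, if (f u = f w ∧ g u = g w) ∧ (g v = g w ∧ h v = h w) then 1 / C w * (1 / D w) else 0 := by
      intro w
      have a1 : A w = ∑ u, if f u = f w ∧ g u = g w then (1 : ℝ) else 0 := by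
        rw [hA]
        simp only [fib, Prod.mk.injEq]
        rw [← sum_filter]
        simp
      have b1 : B w = ∑ v, if g v = g w ∧ h v = h w then (1 : ℝ) else 0 := by
        rw [hB]
        simp only [fib, Prod.mk.injEq]
        rw [← sum_filter]
        simp
      rw [a1, b1, sum_mul_sum, sum_mul]
      refine sum_congr rfl fun u _ => ?_
      rw [sum_mul]
      refine sum_congr rfl fun v _ => ?_
      by_cases c1 : f u = f w ∧ g u = g w <;> by_cases c2 : g v = g w ∧ h v = h w <;> simp [c1, c2]
    rw [sum_congr rfl fun w _ => e1 w, sum_comm]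
    have e2 : ∀ u, ∑ w, ∑ v, (if (f u = f w ∧ g u = g w) ∧ (g v = g w ∧ h v = h w) then
        1 / C w * (1 / D w) else 0) ≤ 1 := by
      intro u
      rw [sum_comm]
      have e3 : ∀ v, ∑ w, (if (f u = f w ∧ g u = g w) ∧ (g v = g w ∧ h v = h w) then
          1 / C w * (1 / D w) else 0) ≤ if g v = g u then 1 / D u else 0 := by
        intro v
        by_cases c : g v = g u
        · rw [if_pos c]
          have e4 : ∀ w, (if (f u = f w ∧ g u = g w) ∧ (g v = g w ∧ h v = h w) then
              1 / C w * (1 / D w) else 0) =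
              if (f w, g w, h w) = (f u, g u, h v) then 1 / C w * (1 / D u) else 0 := by
            intro w
            by_cases c3 : (f w, g w, h w) = (f u, g u, h v)
            · have c4 := c3
              simp only [Prod.mk.injEq] at c4
              obtain ⟨q1, q2, q3⟩ := c4
              rw [if_pos c3, if_pos ⟨⟨q1.symm, q2.symm⟩, c.trans q2.symm, q3.symm⟩]
              have : D w = D u := by
                rw [hD]
                simp only [fib]
                rw [q2]
              rw [this]
            · rw [if_neg c3, if_neg]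
              rintro ⟨⟨q1, q2⟩, q3, q4⟩
              exact c3 (by rw [q1, q2, q4])
          rw [sum_congr rfl fun w _ => e4 w, ← sum_filter, ← sum_mul]
          have := sum_fib_le (fun w => (f w, g w, h w)) (f u, g u, h v)
          calc _ ≤ 1 * (1 / D u) := by
                refine mul_le_mul_of_nonneg_right ?_ (by have := pD u; positivity)
                refine le_trans (le_of_eq ?_) this
                refine sum_congr ?_ fun _ _ => rfl
                ext w
                simp only [mem_filter]
            _ = 1 / D u := one_mul _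
        · rw [if_neg c]
          refine le_of_eq (sum_eq_zero fun w _ => ?_)
          rw [if_neg]
          rintro ⟨⟨_, q2⟩, q3, _⟩
          exact c (q3.trans q2.symm)
      refine (sum_le_sum fun v _ => e3 v).trans ?_
      rw [← sum_filter, sum_const, nsmul_eq_mul]
      have : (((univ.filter fun v => g v = g u).card : ℕ) : ℝ) = D u := rfl
      rw [this, mul_one_div_cancel (pD u).ne']
    refine (sum_le_sum fun u _ => e2 u).trans ?_
    simp
  have e5 : ∀ w, Real.log (A w) + Real.log (B w) - (Real.log (C w) + Real.log (D w)) ≤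
      A w * B w * (1 / C w * (1 / D w)) - 1 := by
    intro w
    have p : 0 < A w * B w * (1 / C w * (1 / D w)) := by
      have := pA w; have := pB w; have := pC w; have := pD w
      positivity
    have := Real.log_le_sub_one_of_pos p
    have e6 : Real.log (A w * B w * (1 / C w * (1 / D w))) =
        Real.log (A w) + Real.log (B w) - (Real.log (C w) + Real.log (D w)) := by
      rw [Real.log_mul (by have := pA w; have := pB w; positivity) (by have := pC w; have := pD w; positivity),
        Real.log_mul (pA w).ne' (pB w).ne', Real.log_mul (by have := pC w; positivity) (by have := pD w; positivity),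
        one_div, one_div, Real.log_inv, Real.log_inv]
      ring
    linarith
  have e7 := sum_le_sum fun w (_ : w ∈ univ) => e5 w
  rw [sum_sub_distrib, sum_sub_distrib, sum_add_distrib, sum_add_distrib] at e7
  simp only [sum_const, card_univ, nsmul_eq_mul, mul_one] at e7
  show ∑ w, Real.log (A w) + ∑ w, Real.log (B w) ≤ ∑ w, Real.log (C w) + ∑ w, Real.log (D w)
  linarith

/-- Conditioning on more decreases the entropy. -/
theorem Hc_anti {β' : Type*} {g' : Ω → β'} {g : Ω → β} (h : Det g' g) (f : Ω → α) : Hc f g' ≤ Hc f g := by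
  rw [Hc_eq, Hc_eq]
  refine div_le_div_of_nonneg_right ?_ (Nat.cast_nonneg _)
  have h1 := co_submod f g g'
  have h2 : co (fun w => (g w, g' w)) = co g' :=
    co_congr (fun v w e => (Prod.ext_iff.mp e).2) fun v w e => Prod.ext (h v w e) e
  have h3 : co (fun w => (f w, g w, g' w)) = co fun w => (f w, g' w) :=
    co_congr (fun v w e => by simp only [Prod.mk.injEq] at e ⊢; exact ⟨e.1, e.2.2⟩)
      fun v w e => by simp only [Prod.mk.injEq] at e ⊢; exact ⟨e.1, h v w e.2, e.2⟩
  rw [h2, h3] at h1
  linarith

theorem Hc_mono {g : Ω → β} {f : Ω → α} {f' : Ω → γ} (h : ∀ v w, f' v = f' w → g v = g w → f v = f w) :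
    Hc f g ≤ Hc f' g := by
  rw [Hc_eq, Hc_eq]
  refine div_le_div_of_nonneg_right ?_ (Nat.cast_nonneg _)
  have : co (fun w => (f' w, g w)) ≤ co fun w => (f w, g w) := co_mono fun v w e => by
    simp only [Prod.mk.injEq] at e ⊢
    exact ⟨h v w e.1 e.2, e.2⟩
  linarith

/-- The chain rule. -/
theorem Hc_chain (f : Ω → α) (g : Ω → β) (h : Ω → γ) :
    Hc (fun w => (f w, g w)) h = Hc f (fun w => (g w, h w)) + Hc g h := by
  unfold Hc
  have : H (fun w => ((f w, g w), h w)) = H fun w => (f w, g w, h w) := by
    unfold H
    rw [co_congr (f := fun w => (f w, g w, h w))]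
    · intro v w e
      simp only [Prod.mk.injEq] at e ⊢
      exact ⟨e.1.1, e.1.2, e.2⟩
    · intro v w e
      simp only [Prod.mk.injEq] at e ⊢
      exact ⟨⟨e.1, e.2.1⟩, e.2.2⟩
  rw [this]
  ring

theorem Hc_zero {f : Ω → α} {g : Ω → β} (h : Det g f) : Hc f g = 0 := by
  rw [Hc_eq, co_congr (g := fun w => (f w, g w)) (f := g) (fun v w e => (Prod.ext_iff.mp e).2)
    fun v w e => Prod.ext (h v w e) e]
  simp

theorem H_le_log_card [Nonempty Ω] [Fintype α] (f : Ω → α) : H f ≤ Real.log (Fintype.card α) := by
  classical
  have hn : (0 : ℝ) < Fintype.card Ω := by exact_mod_cast Fintype.card_pos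
  have ha : (0 : ℝ) < Fintype.card α := by
    have : Nonempty α := ⟨f (Classical.arbitrary Ω)⟩
    exact_mod_cast Fintype.card_pos
  have key : ∑ w, (1 : ℝ) / fib f w ≤ Fintype.card α := by
    have e1 : ∑ w, (1 : ℝ) / fib f w = ∑ a : α, ∑ w ∈ univ.filter (fun w => f w = a), (1 : ℝ) / fib f w := by
      rw [← sum_fiberwise (s := univ) (g := f) (f := fun w => (1 : ℝ) / fib f w)]
    rw [e1]
    refine (sum_le_sum fun a _ => sum_fib_le f a).trans ?_
    simp
  have e2 : ∀ w, Real.log (Fintype.card Ω) - Real.log (Fintype.card α) - Real.log (fib f w) ≤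
      Fintype.card Ω / Fintype.card α * (1 / fib f w) - 1 := by
    intro w
    have p : (0 : ℝ) < fib f w := by exact_mod_cast fib_pos f w
    have := Real.log_le_sub_one_of_pos (x := Fintype.card Ω / Fintype.card α * (1 / fib f w)) (by positivity)
    rw [Real.log_mul (by positivity) (by positivity), Real.log_div hn.ne' ha.ne', one_div, Real.log_inv] at this
    rw [one_div]
    linarith
  have e3 := sum_le_sum fun w (_ : w ∈ univ) => e2 w
  rw [sum_sub_distrib, sum_sub_distrib, sum_sub_distrib, ← mul_sum] at e3
  simp only [sum_const, card_univ, nsmul_eq_mul, mul_one] at e3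
  have e4 : (Fintype.card Ω : ℝ) / Fintype.card α * ∑ w, (1 : ℝ) / fib f w ≤ Fintype.card Ω := by
    calc _ ≤ (Fintype.card Ω : ℝ) / Fintype.card α * Fintype.card α :=
          mul_le_mul_of_nonneg_left key (by positivity)
      _ = Fintype.card Ω := by field_simp
  have e5 : (Fintype.card Ω : ℝ) * (Real.log (Fintype.card Ω) - Real.log (Fintype.card α)) ≤ co f := by
    unfold co
    linarith
  unfold H
  have e6 : Real.log (Fintype.card Ω) - Real.log (Fintype.card α) ≤ co f / Fintype.card Ω := by
    rw [le_div_iff₀ hn]
    linarith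
  linarith

theorem Hc_le_H [Nonempty Ω] (f : Ω → α) (g : Ω → β) : Hc f g ≤ H f := by
  have h1 : Hc f g ≤ Hc f (fun _ : Ω => ()) := Hc_anti (fun _ _ _ => rfl) f
  have h2 : Hc f (fun _ : Ω => ()) = H f := by
    have e1 : H (fun w => (f w, ())) = H f := by
      unfold H
      rw [co_congr (f := f)]
      · intro v w e
        exact (Prod.ext_iff.mp e).1
      · intro v w e
        rw [Prod.mk.injEq]
        exact ⟨e, rfl⟩
    have e2 : H (fun _ : Ω => ()) = 0 := by
      have : ∀ w : Ω, fib (fun _ : Ω => ()) w = Fintype.card Ω := by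
        intro w
        classical
        unfold fib
        simp
      have hn : (Fintype.card Ω : ℝ) ≠ 0 := by
        have : 0 < Fintype.card Ω := Fintype.card_pos
        exact_mod_cast this.ne'
      unfold H co
      simp only [this, sum_const, card_univ, nsmul_eq_mul]
      field_simp
      ring
    unfold Hc
    rw [e1, e2, sub_zero]
  exact h1.trans h2.le

theorem Hc_le_log_card [Nonempty Ω] [Fintype α] (f : Ω → α) (g : Ω → β) :
    Hc f g ≤ Real.log (Fintype.card α) :=
  (Hc_le_H f g).trans (H_le_log_card f)

/-- One label `l` reveals one letter `t r` after the other: if `t r` is a function of `l` and of `Y r`, and `Y (r + 1)`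
determines `Y r` and `t r`, then the conditional entropies of the letters add up to at most the logarithm of the
number of labels. -/
theorem chain [Nonempty Ω] {Λ : Type*} [Fintype Λ] {τ : ℕ → Type*} {υ : ℕ → Type*} (l : Ω → Λ)
    (t : ∀ r, Ω → τ r) (Y : ∀ r, Ω → υ r) (R : ℕ)
    (h1 : ∀ r < R, ∀ v w, Y (r + 1) v = Y (r + 1) w → Y r v = Y r w ∧ t r v = t r w)
    (h2 : ∀ r < R, ∀ v w, l v = l w → Y r v = Y r w → t r v = t r w) :
    ∑ r ∈ range R, Hc (t r) (Y r) ≤ Real.log (Fintype.card Λ) := by
  have step : ∀ r < R, Hc (t r) (Y r) ≤ Hc l (Y r) - Hc l (Y (r + 1)) := by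
    intro r hr
    have e1 : Hc l (Y (r + 1)) ≤ Hc l (fun w => (t r w, Y r w)) :=
      Hc_anti (fun v w e => Prod.ext (h1 r hr v w e).2 (h1 r hr v w e).1) l
    have e2 := Hc_chain l (t r) (Y r)
    have e3 : Hc (fun w => (l w, t r w)) (Y r) ≤ Hc l (Y r) := Hc_mono fun v w e e' =>
      Prod.ext e (h2 r hr v w e e')
    linarith
  have : ∑ r ∈ range R, Hc (t r) (Y r) ≤ ∑ r ∈ range R, (Hc l (Y r) - Hc l (Y (r + 1))) :=
    sum_le_sum fun r hr => step r (mem_range.mp hr)
  rw [sum_range_sub'] at this
  have h3 := Hc_nonneg l (Y R)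
  have h4 := Hc_le_log_card l (Y 0)
  linarith

end basic

section product

variable {C T : Type*} [Fintype C] [Fintype T] {α β : Type*}

/-- Conditioning on the first coordinate of a product. -/
theorem co_prod (f : C × T → α) : co (fun w : C × T => (w.1, f w)) = ∑ c, co fun x : T => f (c, x) := by
  classical
  unfold co
  rw [Fintype.sum_prod_type]
  refine sum_congr rfl fun c _ => sum_congr rfl fun x _ => ?_
  congr 2
  unfold fib
  refine card_bij' (fun v _ => v.2) (fun y _ => (c, y)) ?_ ?_ ?_ ?_
  · intro v hv
    simp only [mem_filter, mem_univ, true_and, Prod.mk.injEq] at hv ⊢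
    rw [← hv.2, ← hv.1]
  · intro y hy
    simp only [mem_filter, mem_univ, true_and, Prod.mk.injEq] at hy ⊢
    exact hy
  · intro v hv
    simp only [mem_filter, mem_univ, true_and, Prod.mk.injEq] at hv
    exact Prod.ext hv.1.symm rfl
  · intro y _
    rfl

/-- The conditional entropy given the first coordinate and `g` is an average. -/
theorem Hc_prod (f : C × T → α) (g : C × T → β) :
    Hc f (fun w => (w.1, g w)) * Fintype.card C = ∑ c, Hc (fun x : T => f (c, x)) fun x => g (c, x) := by
  have e1 : co (fun w : C × T => (f w, w.1, g w)) = ∑ c, co fun x : T => (f (c, x), g (c, x)) := by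
    rw [← co_prod fun w => (f w, g w)]
    refine co_congr ?_ ?_
    · intro v w e
      simp only [Prod.mk.injEq] at e ⊢
      exact ⟨e.2.1, e.1, e.2.2⟩
    · intro v w e
      simp only [Prod.mk.injEq] at e ⊢
      exact ⟨e.2.1, e.1, e.2.2⟩
  rw [Hc_eq, e1, co_prod g, ← sum_sub_distrib, Fintype.card_prod]
  simp_rw [Hc_eq]
  rw [← sum_div]
  rcases Nat.eq_zero_or_pos (Fintype.card C) with h | h
  · have : IsEmpty C := Fintype.card_eq_zero_iff.mp h
    simp
  · have : (Fintype.card C : ℝ) ≠ 0 := by exact_mod_cast h.ne'
    push_cast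
    rw [div_mul_eq_mul_div, mul_comm _ (Fintype.card C : ℝ), mul_div_mul_left _ _ this]

end product

section cube

variable {J : Type*} [Fintype J] [DecidableEq J] {α : Type*}

/-- Independent bits: information on a table adds up over its entries. -/
theorem cube [Fintype α] (G : (J → Bool) → α) {κ : J → Type*} (g : ∀ j, (J → Bool) → κ j) (hg : ∀ j, Det G (g j))
    (s : Finset J) :
    (s.card : ℝ) * Real.log 2 - Real.log (Fintype.card α) ≤ ∑ j ∈ s, Hc (fun x : J → Bool => x j) (g j) := by
  classical
  have h1 : ∀ s : Finset J, Hc (fun (x : J → Bool) (j : s) => x j) G ≤ ∑ j ∈ s, Hc (fun x : J → Bool => x j) G := by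
    intro s
    induction s using Finset.induction_on with
    | empty =>
      rw [sum_empty, Hc_zero]
      intro v w _
      funext j
      exact absurd j.2 (notMem_empty _)
    | insert a s ha ih =>
      rw [sum_insert ha]
      have e1 : Hc (fun (x : J → Bool) (j : ((insert a s : Finset J) : Finset J)) => x j) G ≤
          Hc (fun x : J → Bool => (x a, fun j : s => x j)) G := by
        refine Hc_mono fun v w e _ => ?_
        simp only [Prod.mk.injEq] at e
        funext j
        rcases mem_insert.mp j.2 with h | h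
        · rw [h]
          exact e.1
        · exact congrFun e.2 ⟨j.1, h⟩
      have e2 := Hc_chain (fun x : J → Bool => x a) (fun (x : J → Bool) (j : s) => x j) G
      have e3 : Hc (fun x : J → Bool => x a) (fun x : J → Bool => ((fun j : s => x j), G x)) ≤
          Hc (fun x : J → Bool => x a) G := Hc_anti (fun v w e => (Prod.ext_iff.mp e).2) _
      linarith
  have h2 : ∀ j, Hc (fun x : J → Bool => x j) G ≤ Hc (fun x : J → Bool => x j) (g j) := fun j => Hc_anti (hg j) _
  have h3 : Hc (fun (x : J → Bool) (j : (univ : Finset J)) => x j) G ≤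
      ∑ j ∈ s, Hc (fun x : J → Bool => x j) G + ((univ \ s).card : ℝ) * Real.log 2 := by
    refine (h1 univ).trans ?_
    rw [← sum_sdiff (subset_univ s), add_comm]
    refine add_le_add le_rfl ?_
    refine (sum_le_card_nsmul _ _ (Real.log 2) fun j _ => ?_).trans (by rw [nsmul_eq_mul])
    have := Hc_le_log_card (fun x : J → Bool => x j) G
    simpa using this
  have h4 : (Fintype.card J : ℝ) * Real.log 2 - Real.log (Fintype.card α) ≤
      Hc (fun (x : J → Bool) (j : (univ : Finset J)) => x j) G := by
    unfold Hc
    have e1 : H G ≤ Real.log (Fintype.card α) := H_le_log_card G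
    have e2 : H (fun x : J → Bool => ((fun j : (univ : Finset J) => x j), G x)) =
        (Fintype.card J : ℝ) * Real.log 2 := by
      unfold H
      rw [co_of_injective]
      · simp
      · intro v w e
        simp only [Prod.mk.injEq] at e
        funext j
        exact congrFun e.1 ⟨j, mem_univ j⟩
    linarith
  have h5 : ((univ \ s).card : ℝ) = Fintype.card J - s.card := by
    rw [card_sdiff_of_subset (subset_univ s), card_univ, Nat.cast_sub (card_le_univ s)]
  have h6 := sum_le_sum fun j (_ : j ∈ s) => h2 j
  rw [h5] at h3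
  linarith

end cube

end Pool.Agent.Helper87.EN
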